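import Pool.Agent.Helper77.FRP.Helix
import Pool.Agent.Helper77.FRP.Forced

/-!
# `R(⊔,;)` fails the finite representation property

There is a finite structure with two binary operations which has a representation by binary
relations under demonic join and ordinary composition, but all of whose representations have
an infinite base.

The finite structure consists of (finite unions of) products of a few relations on an infinite
base.  The base carries a set `R` of points with two commuting maps `h`, `v` and a labelling by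
finitely many multiplication tiles (multiplication by `2` and by `1/3` of Beatty sequences, in
the style of Kari).  Two auxiliary points make all products of at least three of the step
relations equal, so that only finitely many relations arise; a walk from a point of `R` to a
point of `R` through the auxiliary points needs at least three steps, so the identity
`H;V = V;H` still forces a grid in every representation.  A finite base would give a
helically periodic tiling, which is impossible.
-/

namespace Pool.Agent.Results.MP_24c3b6_lc.NoFRP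

open Pool.Agent.Helper77.FRP

universe u v

/-- Demonic join of two binary relations: their union restricted to the points lying in both
domains. -/
def demJoin {X : Type u} (R S : X → X → Prop) : X → X → Prop :=
  fun x y => (R x y ∨ S x y) ∧ (∃ z, R x z) ∧ (∃ z, S x z)

/-- Ordinary composition of binary relations. -/
def relComp {X : Type u} (R S : X → X → Prop) : X → X → Prop :=
  fun x z => ∃ y, R x y ∧ S y z

/-- `θ` is a `(⊔,;)`-representation, over the base `X`, of the structure `S` with the two
binary operations `add` and `mul`: an injective map into the binary relations on `X` taking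
`add` to demonic join and `mul` to ordinary composition. -/
def IsRep {S : Type v} (add mul : S → S → S) {X : Type u} (θ : S → X → X → Prop) : Prop :=
  Function.Injective θ ∧ (∀ a b, θ (add a b) = demJoin (θ a) (θ b)) ∧
    ∀ a b, θ (mul a b) = relComp (θ a) (θ b)

/-! ### The labelled set -/

/-- the real parameters, in `[1,6)` -/
abbrev Q : Type := {x : ℚ // 1 ≤ x ∧ x < 6}

/-- the parameter map: multiplication by `2` or by `1/3` -/
def qf (x : Q) : Q :=
  if h : x.1 < 3 then ⟨2 * x.1, by constructor <;> linarith [x.2.1]⟩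
  else ⟨x.1 / 3, by
    have := x.2.2
    constructor <;> linarith [not_lt.1 h]⟩

/-- the points -/
abbrev P : Type := ℕ × Q

/-- horizontal step -/
def hh (y : P) : P := (y.1 + 1, y.2)

/-- vertical step -/
def vv (y : P) : P := (y.1, qf y.2)

theorem hh_vv : hh ∘ vv = vv ∘ hh := rfl

/-- `⌊i x⌋` -/
def fl (y : P) : ℤ := ⌊(y.1 : ℚ) * y.2.1⌋

/-- type of the row -/
def ty (y : P) : Bool := decide (y.2.1 < 3)

/-- digit -/
def dig (y : P) : ℤ := fl (hh y) - fl y

/-- carry -/
def car (y : P) : ℤ := if y.2.1 < 3 then 2 * fl y - fl (vv y) else fl y - 3 * fl (vv y)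

theorem dig_bounds (y : P) : 1 ≤ dig y ∧ dig y ≤ 6 := by
  obtain ⟨i, x, hx1, hx2⟩ := y
  have e : ((i + 1 : ℕ) : ℚ) * x = (i : ℚ) * x + x := by push_cast; ring
  simp only [dig, fl, hh]
  rw [e]
  have h1 := Int.floor_le ((i : ℚ) * x)
  have h2 := Int.lt_floor_add_one ((i : ℚ) * x)
  have h3 := Int.floor_le ((i : ℚ) * x + x)
  have h4 := Int.lt_floor_add_one ((i : ℚ) * x + x)
  constructor
  · have : ⌊(i : ℚ) * x⌋ + 1 ≤ ⌊(i : ℚ) * x + x⌋ := by
      apply Int.le_floor.2
      push_cast
      linarith
    linarith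
  · have : (⌊(i : ℚ) * x + x⌋ : ℚ) < (⌊(i : ℚ) * x⌋ : ℚ) + 1 + 6 := by linarith
    have h5 : ⌊(i : ℚ) * x + x⌋ < ⌊(i : ℚ) * x⌋ + 1 + 6 := by exact_mod_cast this
    linarith

theorem car_bounds (y : P) : -3 ≤ car y ∧ car y ≤ 3 := by
  obtain ⟨i, x, hx1, hx2⟩ := y
  by_cases hx : x < 3
  · simp only [car, fl, vv, qf, hx, if_true, dif_pos]
    have e : (i : ℚ) * (2 * x) = 2 * ((i : ℚ) * x) := by ring
    rw [e]
    have h1 := Int.floor_le ((i : ℚ) * x)
    have h2 := Int.lt_floor_add_one ((i : ℚ) * x)
    have h3 := Int.floor_le (2 * ((i : ℚ) * x))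
    have h4 := Int.lt_floor_add_one (2 * ((i : ℚ) * x))
    constructor
    · have : (⌊2 * ((i : ℚ) * x)⌋ : ℚ) < 2 * (⌊(i : ℚ) * x⌋ : ℚ) + 3 := by linarith
      have h5 : ⌊2 * ((i : ℚ) * x)⌋ < 2 * ⌊(i : ℚ) * x⌋ + 3 := by exact_mod_cast this
      linarith
    · have : 2 * (⌊(i : ℚ) * x⌋ : ℚ) < (⌊2 * ((i : ℚ) * x)⌋ : ℚ) + 1 := by linarith
      have h5 : 2 * ⌊(i : ℚ) * x⌋ < ⌊2 * ((i : ℚ) * x)⌋ + 1 := by exact_mod_cast this
      linarith
  · simp only [car, fl, vv, qf, hx, if_false, dif_neg, not_false_eq_true]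
    have e : (i : ℚ) * (x / 3) = ((i : ℚ) * x) / 3 := by ring
    rw [e]
    have h1 := Int.floor_le ((i : ℚ) * x)
    have h2 := Int.lt_floor_add_one ((i : ℚ) * x)
    have h3 := Int.floor_le (((i : ℚ) * x) / 3)
    have h4 := Int.lt_floor_add_one (((i : ℚ) * x) / 3)
    constructor
    · have : 3 * (⌊((i : ℚ) * x) / 3⌋ : ℚ) < (⌊(i : ℚ) * x⌋ : ℚ) + 1 := by linarith
      have h5 : 3 * ⌊((i : ℚ) * x) / 3⌋ < ⌊(i : ℚ) * x⌋ + 1 := by exact_mod_cast this
      linarith
    · have : (⌊(i : ℚ) * x⌋ : ℚ) < 3 * (⌊((i : ℚ) * x) / 3⌋ : ℚ) + 3 := by linarith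
      have h5 : ⌊(i : ℚ) * x⌋ < 3 * ⌊((i : ℚ) * x) / 3⌋ + 3 := by exact_mod_cast this
      linarith

/-- the label of a point: type, digit, next digit, carry in, carry out -/
def lab (y : P) : Bool × ℤ × ℤ × ℤ × ℤ := (ty y, dig y, dig (vv y), car y, car (hh y))

theorem lab_finite : (Set.range lab).Finite := by
  apply Set.Finite.subset (s := (Set.univ : Set Bool) ×ˢ (Set.Icc (1 : ℤ) 6 ×ˢ
    (Set.Icc (1 : ℤ) 6 ×ˢ (Set.Icc (-3 : ℤ) 3 ×ˢ Set.Icc (-3 : ℤ) 3))))
  · exact Set.finite_univ.prod ((Set.finite_Icc _ _).prod ((Set.finite_Icc _ _).prod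
      ((Set.finite_Icc _ _).prod (Set.finite_Icc _ _))))
  · rintro _ ⟨y, rfl⟩
    exact ⟨trivial, dig_bounds y, dig_bounds _, car_bounds y, car_bounds _⟩

theorem lab_true (y : P) (h : ty y = true) :
    2 * dig y + car y = dig (vv y) + car (hh y) := by
  have hx : y.2.1 < 3 := by simpa [ty] using h
  have hx' : (hh y).2.1 < 3 := hx
  have e : fl (hh (vv y)) = fl (vv (hh y)) := rfl
  simp only [car, hx, hx', if_true, dig, e]
  ring

theorem lab_false (y : P) (h : ty y = false) :
    dig y + car y = 3 * dig (vv y) + car (hh y) := by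
  have hx : ¬ y.2.1 < 3 := by simpa [ty] using h
  have hx' : ¬ (hh y).2.1 < 3 := hx
  have e : fl (hh (vv y)) = fl (vv (hh y)) := rfl
  simp only [car, hx, hx', if_false, dig, e]
  ring

/-- the type of labels -/
abbrev Lab : Type := ↥(Set.range lab)

/-- the labelling -/
def om (y : P) : Lab := ⟨lab y, y, rfl⟩

/-- the finite structure -/
abbrev A : Type := Alg hh vv om

instance : Finite Lab := lab_finite

instance : Finite A := blkSet_finite hh vv om

instance : Nonempty P := ⟨(0, ⟨1, by norm_num⟩)⟩

/-- no finite base -/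
theorem no_finite {Y : Type u} (θ : A → Y → Y → Prop) (hinj : Function.Injective θ)
    (hadd : ∀ a b x y, θ (algAdd a b) x y ↔ θ a x y ∨ θ b x y)
    (hmul : ∀ a b x z, θ (algMul hh_vv a b) x z ↔ ∃ y, θ a x y ∧ θ b y z) : Infinite Y := by
  by_contra hfin
  rw [not_infinite_iff_finite] at hfin
  obtain ⟨D, tile, H, V, hD, hH, hV, hconf, htH, htV⟩ := forced hh_vv θ hinj hadd hmul
  have := hD
  refine helix_contra (Y := D) hH hV hconf (fun y => (tile y).1.1) (fun y => (tile y).1.2.1)
    (fun y => (tile y).1.2.2.1) (fun y => (tile y).1.2.2.2.1) (fun y => (tile y).1.2.2.2.2)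
    ?_ ?_ ?_ ?_ ?_ ?_ ?_ ?_
  · intro x y hxy
    obtain ⟨r, h1, h2⟩ := htH x y hxy
    simp only [← h1, ← h2]
    rfl
  · intro x y hxy
    obtain ⟨r, h1, h2⟩ := htH x y hxy
    simp only [← h1, ← h2]
    rfl
  · intro x y hxy
    obtain ⟨r, h1, h2⟩ := htV x y hxy
    simp only [← h1, ← h2]
    rfl
  · intro y hy
    obtain ⟨r, hr⟩ := (tile y).2
    rw [← hr] at hy
    simp only [← hr]
    exact lab_true r hy
  · intro y hy
    obtain ⟨r, hr⟩ := (tile y).2
    rw [← hr] at hy
    simp only [← hr]
    exact lab_false r hy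
  · intro y
    obtain ⟨r, hr⟩ := (tile y).2
    simp only [← hr]
    exact (dig_bounds r).1
  · intro y
    obtain ⟨r, hr⟩ := (tile y).2
    simp only [← hr]
    exact (dig_bounds r).2
  · intro y
    obtain ⟨r, hr⟩ := (tile y).2
    simp only [← hr]
    exact abs_le.2 (car_bounds (hh r))

/-- In a `(⊔,;)`-representation of the finite structure, demonic join is union. -/
theorem add_of_isRep {Y : Type u} {θ : A → Y → Y → Prop}
    (hθ : IsRep algAdd (algMul hh_vv) θ) (a b : A) (x y : Y) :
    θ (algAdd a b) x y ↔ θ a x y ∨ θ b x y := by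
  obtain ⟨-, hadd, hmul⟩ := hθ
  have hdom : ∀ (a : A) (x : Y), (∃ y, θ a x y) ↔ ∃ y, θ (algZero hh vv om) x y := by
    intro a x
    constructor
    · rintro ⟨y, hy⟩
      rw [← zero_add' a, hadd] at hy
      exact hy.2.1
    · rintro ⟨y, hy⟩
      rw [← mul_zero' hh_vv a, hmul] at hy
      obtain ⟨z, hz, -⟩ := hy
      exact ⟨z, hz⟩
  rw [hadd]
  constructor
  · exact fun h => h.1
  · intro h
    have h0 : ∃ y, θ (algZero hh vv om) x y := by
      rcases h with h | h
      · exact (hdom a x).1 ⟨y, h⟩
      · exact (hdom b x).1 ⟨y, h⟩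
    exact ⟨h, (hdom a x).2 h0, (hdom b x).2 h0⟩

/-- **`R(⊔,;)` fails the finite representation property.**  There is a finite structure `S` with
two binary operations that has a `(⊔,;)`-representation (even over a countable base), while
every `(⊔,;)`-representation of it has an infinite base. -/
theorem result : ∃ (S : Type) (_ : Finite S) (add mul : S → S → S),
    (∃ (X : Type) (_ : Countable X) (θ : S → X → X → Prop), IsRep add mul θ) ∧
    ∀ (Y : Type u) (θ : S → Y → Y → Prop), IsRep add mul θ → Infinite Y := by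
  refine ⟨A, inferInstance, algAdd, algMul hh_vv, ⟨Base P, base_countable,
    fun a => rel a.1, ?_, ?_, ?_⟩, ?_⟩
  · intro a b hab
    exact Subtype.ext (rel_injective hab)
  · intro a b
    funext x y
    apply propext
    change rel (blkAdd a.1 b.1) x y ↔ _
    rw [rel_add]
    exact ⟨fun h => ⟨h, ⟨.sink, rel_sink _ _⟩, ⟨.sink, rel_sink _ _⟩⟩, fun h => h.1⟩
  · intro a b
    funext x y
    apply propext
    exact rel_mul a.1 b.1 x y
  · intro Y θ hθ
    refine no_finite θ hθ.1 (add_of_isRep hθ) ?_
    intro a b x z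
    rw [hθ.2.2]
    rfl

/-- Remark (not part of the hand-in): the same structure shows that the class of structures
representable under ordinary union and composition fails the finite representation property. -/
theorem angelic : ∃ (S : Type) (_ : Finite S) (add mul : S → S → S),
    (∃ (X : Type) (_ : Countable X) (θ : S → X → X → Prop), Function.Injective θ ∧
      (∀ a b x y, θ (add a b) x y ↔ θ a x y ∨ θ b x y) ∧
      ∀ a b x z, θ (mul a b) x z ↔ ∃ y, θ a x y ∧ θ b y z) ∧
    ∀ (Y : Type u) (θ : S → Y → Y → Prop), Function.Injective θ →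
      (∀ a b x y, θ (add a b) x y ↔ θ a x y ∨ θ b x y) →
      (∀ a b x z, θ (mul a b) x z ↔ ∃ y, θ a x y ∧ θ b y z) → Infinite Y := by
  refine ⟨A, inferInstance, algAdd, algMul hh_vv, ⟨Base P, base_countable,
    fun a => rel a.1, ?_, ?_, ?_⟩, ?_⟩
  · intro a b hab
    exact Subtype.ext (rel_injective hab)
  · intro a b x y
    exact rel_add a.1 b.1 x y
  · intro a b x y
    exact rel_mul a.1 b.1 x y
  · intro Y θ h1 h2 h3
    exact no_finite θ h1 h2 h3

end Pool.Agent.Results.MP_24c3b6_lc.NoFRP
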